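import Pool.Agent.H64.Mix.Shadow
import Pool.Agent.H74.Shadow.NoExt

/-!
# No zero-dimensional system with shadowing factors onto `(XSp (pr D), sh (pr D))`
-/

namespace Pool.Agent.H64.Mix

open Filter Topology Uniformity Pool.Agent.H74.Shadow

theorem pr_surjective (D : Dta) : Function.Surjective (pr D) := fun b =>
  ⟨⟨lift D b 0, lift_mem D b le_rfl zero_le_one⟩, rfl⟩

theorem pi_iter {E : Type*} [TopologicalSpace E] {h : E → Sg} {Y : Type*} {g : Y → Y}
    {π : Y → XSp h} (hcomm : ∀ y, π (g y) = sh h (π y)) (i : ℕ) (y : Y) (j : ℤ) :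
    (π (g^[i] y)).1 j = (π y).1 (j + i) := by
  have h1 : π (g^[i] y) = (sh h)^[i] (π y) := by
    induction i with
    | zero => rfl
    | succ i ih => rw [Function.iterate_succ_apply', hcomm, ih, Function.iterate_succ_apply']
  rw [h1, sh_iter]

theorem reg_image {E : Type*} [UniformSpace E] (h : E → Sg) {Y : Type*} [UniformSpace Y]
    [CompactSpace Y] (g : Y → Y) (hsh : Shadowing g) (π : Y → XSp h) (hπ : Continuous π)
    (hcomm : ∀ y, π (g y) = sh h (π y)) {C : Set Y} (hC : IsClopen C) :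
    ∃ c : Code, ∀ b, b ∈ Reg c ↔ ∃ y ∈ C, ∀ i : ℕ, lab ((π y).1 ((i : ℤ) + 1)) = true ∧
      val ((π y).1 ((i : ℤ) + 1)) = b i := by
  classical
  let lab0 : XSp h → Bool × Bool := fun x => (lab (x.1 0), val (x.1 0))
  have hlab0 : Continuous lab0 :=
    (continuous_lab.comp ((continuous_apply 0).comp continuous_subtype_val)).prodMk
      (continuous_val.comp ((continuous_apply 0).comp continuous_subtype_val))
  let κ : Y → Bool × Bool × Bool := fun y => (C.boolIndicator y, lab0 (π y))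
  have hκ : Continuous κ :=
    ((continuous_boolIndicator_iff_isClopen C).2 hC).prodMk (hlab0.comp hπ)
  have hV : {p : Y × Y | κ p.1 = κ p.2} ∈ 𝓤 Y := by
    rw [← nhdsSet_diagonal_eq_uniformity]
    have ho : IsOpen {p : Y × Y | κ p.1 = κ p.2} := by
      have h1 : Continuous fun p : Y × Y => (κ p.1, κ p.2) :=
        (hκ.comp continuous_fst).prodMk (hκ.comp continuous_snd)
      exact (isOpen_discrete {q : (Bool × Bool × Bool) × (Bool × Bool × Bool) | q.1 = q.2}).preimage h1
    rw [ho.mem_nhdsSet]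
    rintro ⟨a, b⟩ hab
    have hab' : a = b := hab
    show κ a = κ b
    rw [hab']
  obtain ⟨D, hD, hsh'⟩ := hsh _ hV
  obtain ⟨W, hW, hWs, hWD⟩ := comp_symm_mem_uniformity_sets hD
  obtain ⟨t, ht⟩ := CompactSpace.elim_nhds_subcover
    (fun y : Y => UniformSpace.ball y W) (fun y => UniformSpace.ball_mem_nhds y hW)
  have hidx : ∀ y : Y, ∃ x : t, (x.1, y) ∈ W := by
    intro y
    have : y ∈ ⋃ x ∈ t, UniformSpace.ball x W := by rw [ht]; trivial
    rw [Set.mem_iUnion₂] at this
    obtain ⟨x, hx, hxy⟩ := this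
    exact ⟨⟨x, hx⟩, hxy⟩
  choose idx hidx using hidx
  let κ' : Y → Kt t.card := fun y => (t.equivFin (idx y), κ y)
  have hκ' : ∀ y y', κ' y = κ' y' → (y, y') ∈ D := by
    intro y y' hyy
    have h1 : idx y = idx y' := t.equivFin.injective (congrArg Prod.fst hyy)
    refine hWD ⟨(idx y).1, hWs.symm _ _ (hidx y), ?_⟩
    rw [h1]
    exact hidx y'
  have hat : ∀ (i : ℕ) (y : Y), (κ (g^[i + 1] y)).2 =
      (lab ((π y).1 ((i : ℤ) + 1)), val ((π y).1 ((i : ℤ) + 1))) := by
    intro i y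
    show (lab ((π (g^[i + 1] y)).1 0), val ((π (g^[i + 1] y)).1 0)) = _
    rw [pi_iter hcomm, zero_add]
    push_cast
    rfl
  refine ⟨⟨t.card, fun a a' => decide (∃ y, κ' y = a ∧ κ' (g y) = a')⟩, fun b => ⟨?_, ?_⟩⟩
  · rintro ⟨w, hw0, hw⟩
    have h1 : ∀ i, ∃ y, κ' y = w i ∧ κ' (g y) = w (i + 1) := fun i => of_decide_eq_true (hw i).1
    choose y hy1 hy2 using h1
    obtain ⟨z, hz⟩ := hsh' y fun i => hκ' _ _ (by rw [hy2 i, hy1 (i + 1)])
    have hz' : ∀ i, κ (y i) = κ (g^[i] z) := hz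
    have hκw : ∀ i, κ (y i) = (w i).2 := fun i => congrArg Prod.snd (hy1 i)
    have hzC : z ∈ C := by
      have h2 : C.boolIndicator z = true := by
        have h3 : (κ z).1 = (w 0).2.1 := by
          have := hz' 0
          rw [hκw 0] at this
          rw [this]
          rfl
        rw [← hw0, ← h3]
      exact (Set.mem_iff_boolIndicator C z).2 h2
    refine ⟨z, hzC, fun i => ?_⟩
    have h4 : (κ (g^[i + 1] z)).2 = (true, b i) := by
      rw [← hz' (i + 1), hκw (i + 1)]
      exact (hw i).2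
    have h6 := (hat i z).symm.trans h4
    exact ⟨congrArg Prod.fst h6, congrArg Prod.snd h6⟩
  · rintro ⟨y, hyC, hy⟩
    refine ⟨fun i => κ' (g^[i] y), ?_, fun i => ⟨?_, ?_⟩⟩
    · show C.boolIndicator y = true
      exact (Set.mem_iff_boolIndicator C y).1 hyC
    · refine decide_eq_true ⟨g^[i] y, rfl, ?_⟩
      show κ' (g (g^[i] y)) = κ' (g^[i + 1] y)
      rw [Function.iterate_succ_apply']
    · have h1 : (κ (g^[i + 1] y)).2 = (true, b i) := by
        rw [hat i y, (hy i).1, (hy i).2]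
      exact h1

/-- a letter of `E` followed by digits only -/
theorem string_eq {E : Type*} {h : E → Sg} (x : XSp h) {e : E} (he : x.1 0 = Sum.inl e)
    (hl : ∀ i : ℕ, lab (x.1 ((i : ℤ) + 1)) = true) (q : ℕ) : val (x.1 ((q : ℤ) + 1)) = h e q := by
  have h1 := x.2 0 q (by rw [he]; rfl) (fun j _ => by
    rw [show (0 : ℤ) + 1 + j = (j : ℤ) + 1 by ring]
    exact hl j)
  rw [show (0 : ℤ) + 1 + q = (q : ℤ) + 1 by ring, he] at h1
  exact h1

theorem no_ext (D : Dta) (hK : Kill D) {Y : Type*} [UniformSpace Y] [CompactSpace Y] [T2Space Y]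
    (hz : ZeroDimensional Y) (g : Y → Y) (hsh : Shadowing g)
    (π : Y → XSp (pr D)) (hπ : Continuous π) (hsur : Function.Surjective π)
    (hcomm : ∀ y, π (g y) = sh (pr D) (π y)) : False := by
  classical
  have : TotallySeparatedSpace Y := totallySeparatedSpace_of_t0_of_basis_clopen hz
  have : TotallyDisconnectedSpace Y := TotallySeparatedSpace.totallyDisconnectedSpace Y
  have hev : Continuous fun x : XSp (pr D) => x.1 0 :=
    (continuous_apply (0 : ℤ)).comp continuous_subtype_val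
  let Φ0 : ESp D ⊕ Bool → Sg × ℝ := Sum.elim (fun e => (e.1.1, e.1.2.1)) (fun _ => (fun _ => false, 1))
  have hΦ0 : Continuous Φ0 := by
    apply Continuous.sumElim
    · exact (continuous_fst.comp continuous_subtype_val).prodMk
        (continuous_fst.comp (continuous_snd.comp continuous_subtype_val))
    · exact continuous_const
  let Φ : Y → Sg × ℝ := fun y => Φ0 ((π y).1 0)
  have hΦ : Continuous Φ := hΦ0.comp (hev.comp hπ)
  obtain ⟨C, hC, hZC, hCU⟩ := exists_clopen_of_closed_subset_open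
    (Z := {y | (Φ y).2 ≤ 1 / 3}) (U := {y | (Φ y).2 < 2 / 3})
    (isClosed_le (continuous_snd.comp hΦ) continuous_const)
    (isOpen_lt (continuous_snd.comp hΦ) continuous_const) (fun y hy => by
      have hy' : (Φ y).2 ≤ 1 / 3 := hy
      show (Φ y).2 < 2 / 3
      linarith)
  have hCE : ∀ y ∈ C, ∃ e, (π y).1 0 = Sum.inl e := by
    intro y hy
    rcases hπy : (π y).1 0 with e | b
    · exact ⟨e, rfl⟩
    · have h1 : (Φ y).2 < 2 / 3 := hCU hy
      have h2 : Φ y = (fun _ => false, 1) := by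
        show Φ0 ((π y).1 0) = _
        rw [hπy]
        rfl
      rw [h2] at h1
      norm_num at h1
  have hΦe : ∀ y e, (π y).1 0 = Sum.inl e → Φ y = (e.1.1, e.1.2.1) := by
    intro y e he
    show Φ0 ((π y).1 0) = _
    rw [he]
    rfl
  -- the orbits which meet `E` only at time `0`
  let P : Set Y := {y | ∀ i : ℕ, lab ((π y).1 ((i : ℤ) + 1)) = true}
  have hP : IsClosed P := by
    have h1 : P = ⋂ i : ℕ, {y | lab ((π y).1 ((i : ℤ) + 1)) = true} := by
      ext y
      simp only [Set.mem_iInter]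
      rfl
    rw [h1]
    refine isClosed_iInter fun i => ?_
    have h2 : Continuous fun y => lab ((π y).1 ((i : ℤ) + 1)) :=
      continuous_lab.comp ((continuous_apply _).comp (continuous_subtype_val.comp hπ))
    exact (isClosed_discrete {true}).preimage h2
  obtain ⟨β, hβ⟩ := hK (Φ '' (C ∩ P)) ((hC.isClosed.inter hP).isCompact.image hΦ).isClosed
    (by
      intro b
      let x0 : ℤ → ESp D ⊕ Bool := fun j => if j = 0 then
        Sum.inl ⟨lift D b 0, lift_mem D b le_rfl zero_le_one⟩ else Sum.inr (b (j - 1).toNat)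
      have e0 : x0 0 = Sum.inl ⟨lift D b 0, lift_mem D b le_rfl zero_le_one⟩ := if_pos rfl
      have e1 : ∀ j : ℤ, j ≠ 0 → x0 j = Sum.inr (b (j - 1).toNat) := fun j hj => if_neg hj
      have hx0 : x0 ∈ XSet (pr D) := by
        intro p q hp _
        have h1 : p = 0 := by
          by_contra hcon
          rw [e1 p hcon] at hp
          exact absurd hp (by simp [lab])
        subst h1
        rw [e1 _ (by omega), e0]
        show b ((0 : ℤ) + 1 + q - 1).toNat = b q
        congr 1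
        omega
      obtain ⟨y, hy⟩ := hsur ⟨x0, hx0⟩
      have h0 : (π y).1 0 = Sum.inl ⟨lift D b 0, lift_mem D b le_rfl zero_le_one⟩ := by
        rw [hy]
        exact e0
      have h1 : Φ y = (b, 0) := hΦe y _ h0
      refine ⟨0, y, ⟨hZC ?_, fun i => ?_⟩, h1⟩
      · show (Φ y).2 ≤ 1 / 3
        rw [h1]
        norm_num
      · rw [hy]
        show lab (x0 ((i : ℤ) + 1)) = true
        rw [e1 _ (by omega)]
        rfl)
    (by
      rintro b t ⟨y, ⟨hy, -⟩, hyt⟩
      obtain ⟨e, he⟩ := hCE y hy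
      have h1 := hΦe y e he
      have h2 : (Φ y).2 < 2 / 3 := hCU hy
      rw [hyt] at h1 h2
      have h3 : t = e.1.2.1 := congrArg Prod.snd h1
      have h4 := e.2.1.1
      simp only at h2
      constructor
      · rw [h3]; exact h4
      · linarith)
  let φ0 : ESp D ⊕ Bool → ℝ := Sum.elim (fun e => e.1.2.2 β) (fun _ => 0)
  have hφ0 : Continuous φ0 := by
    apply Continuous.sumElim
    · exact (continuous_apply β).comp
        (continuous_snd.comp (continuous_snd.comp continuous_subtype_val))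
    · exact continuous_const
  let φ : Y → ℝ := fun y => φ0 ((π y).1 0)
  have hφ : Continuous φ := hφ0.comp (hev.comp hπ)
  obtain ⟨C', hC', hZC', hCU'⟩ := exists_clopen_of_closed_subset_open
    (Z := C ∩ {y | 2 / 3 ≤ φ y}) (U := C ∩ {y | 1 / 3 < φ y})
    (hC.isClosed.inter (isClosed_le continuous_const hφ))
    (hC.isOpen.inter (isOpen_lt continuous_const hφ)) (fun y hy => by
      refine ⟨hy.1, ?_⟩
      have hy' : 2 / 3 ≤ φ y := hy.2
      show 1 / 3 < φ y
      linarith)
  obtain ⟨c, hc⟩ := reg_image (pr D) g hsh π hπ hcomm hC'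
  obtain ⟨n, q, y0, hqβ, hfd, hqF, hmax, hcase⟩ := hβ c
  have hval : ∀ e : ESp D, e.1.1 = q → e.1.2.2 β = bump (D.x β n) n e.1.2.1 := by
    intro e he
    have h1 := e.2.2.2.1 β (by rw [he]; exact hqβ)
    rw [h1, he]
    unfold psi
    rw [hfd]
  rcases hcase with ⟨hq, hx⟩ | ⟨hq, hx⟩
  · obtain ⟨y, ⟨hyC, hyP⟩, hy⟩ := hqF
    obtain ⟨e, he⟩ := hCE y hyC
    have h1 := hΦe y e he
    rw [hy] at h1
    have h2 : e.1.1 = q := (congrArg Prod.fst h1).symm
    have h3 : e.1.2.1 = y0 := (congrArg Prod.snd h1).symm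
    have h4 : e.1.2.2 β = 1 := by
      rw [hval e h2, h3, hx]
      unfold bump
      simp
    apply hq
    rw [hc]
    refine ⟨y, hZC' ⟨hyC, ?_⟩, fun i => ⟨hyP i, ?_⟩⟩
    · show 2 / 3 ≤ φ0 ((π y).1 0)
      rw [he]
      show 2 / 3 ≤ e.1.2.2 β
      rw [h4]
      norm_num
    · rw [string_eq (π y) he hyP i, ← h2]
      rfl
  · rw [hc] at hq
    obtain ⟨y, hyC', hyq⟩ := hq
    obtain ⟨hyC, hφy⟩ := hCU' hyC'
    obtain ⟨e, he⟩ := hCE y hyC
    have hyP : ∀ i : ℕ, lab ((π y).1 ((i : ℤ) + 1)) = true := fun i => (hyq i).1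
    have h2' : e.1.1 = q := by
      funext i
      rw [← (hyq i).2, string_eq (π y) he hyP i]
      rfl
    have h1 := hΦe y e he
    rw [h2'] at h1
    have h3 : e.1.2.1 ≤ y0 := hmax _ ⟨y, ⟨hyC, hyP⟩, h1⟩
    have h4 : e.1.2.2 β = 0 := by
      rw [hval e h2', hx]
      apply bump_zero
      have hn : (0 : ℝ) < (n : ℝ) + 10 := by positivity
      have h5 : 2 / ((n : ℝ) + 10) ≤ |e.1.2.1 - (y0 + 2 / ((n : ℝ) + 10))| := by
        rw [abs_sub_comm]
        refine le_trans ?_ (le_abs_self _)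
        linarith
      have h6 : ((n : ℝ) + 10) * (2 / ((n : ℝ) + 10)) = 2 := by field_simp
      have h7 := mul_le_mul_of_nonneg_left h5 hn.le
      linarith
    have h8 : 1 / 3 < φ0 ((π y).1 0) := hφy
    rw [he] at h8
    have h9 : (1 : ℝ) / 3 < e.1.2.2 β := h8
    rw [h4] at h9
    norm_num at h9

end Pool.Agent.H64.Mix
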