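import Pool.Agent.H64.Mix.Space

/-!
# The shift of the space `XSp h` has the shadowing property
-/

namespace Pool.Agent.H64.Mix

open Filter Topology Uniformity Pool.Agent.H74.Shadow

variable {E : Type*}

theorem lab_val_eq {a b : E ⊕ Bool} (h1 : lab a = true) (h2 : lab b = true) (h3 : val a = val b) :
    a = b := by
  rcases a with a | a
  · exact absurd h1 (by simp [lab])
  · rcases b with b | b
    · exact absurd h2 (by simp [lab])
    · exact congrArg Sum.inr h3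

theorem disc_mem [UniformSpace E] [CompactSpace E] :
    {p : (E ⊕ Bool) × (E ⊕ Bool) | lab p.1 = lab p.2 ∧ val p.1 = val p.2} ∈ 𝓤 (E ⊕ Bool) := by
  rw [← nhdsSet_diagonal_eq_uniformity]
  have ho : IsOpen {p : (E ⊕ Bool) × (E ⊕ Bool) | lab p.1 = lab p.2 ∧ val p.1 = val p.2} := by
    have h1 : Continuous fun p : (E ⊕ Bool) × (E ⊕ Bool) =>
        ((lab p.1, val p.1), (lab p.2, val p.2)) :=
      ((continuous_lab.comp continuous_fst).prodMk (continuous_val.comp continuous_fst)).prodMk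
        ((continuous_lab.comp continuous_snd).prodMk (continuous_val.comp continuous_snd))
    exact (isOpen_discrete {q : (Bool × Bool) × (Bool × Bool) |
      q.1.1 = q.2.1 ∧ q.1.2 = q.2.2}).preimage h1
  rw [ho.mem_nhdsSet]
  rintro ⟨a, b⟩ hab
  have hab' : a = b := hab
  show lab a = lab b ∧ val a = val b
  rw [hab']
  exact ⟨rfl, rfl⟩

theorem shadowing_sh [UniformSpace E] [CompactSpace E] {h : E → Sg} (hc : Continuous h)
    (ho : IsOpenMap h) : Shadowing (sh h) := by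
  classical
  have := compactSpace_XSp hc
  intro V hV
  obtain ⟨m, V₀, hV₀, hVm⟩ := sub_window hV
  obtain ⟨V₁, hV₁, hV₁s, hV₁V⟩ := comp_symm_mem_uniformity_sets hV₀
  have hVE : {p : E × E | ((Sum.inl p.1 : E ⊕ Bool), (Sum.inl p.2 : E ⊕ Bool)) ∈ V₁} ∈ 𝓤 E :=
    uniformContinuous_inl hV₁
  obtain ⟨M, hM⟩ := unif_open h hc ho hVE
  obtain ⟨K, hKm, hKM⟩ : ∃ K : ℕ, m ≤ K ∧ M + 1 ≤ K := ⟨max m (M + 1), le_max_left _ _, le_max_right _ _⟩
  obtain ⟨D, hD, hDx⟩ := orbit_control (f := sh h)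
    (CompactSpace.uniformContinuous_of_continuous (sh h).continuous) K _
    (window_mem (S := XSet h) K (inter_mem hV₁ (disc_mem (E := E))))
  refine ⟨D, hD, fun x hx => ?_⟩
  have hctl := hDx x hx
  -- the letters of the pseudo-orbit
  let ζ : ℤ → E ⊕ Bool := fun j => if 0 ≤ j then (x j.toNat).1 0 else (x 0).1 j
  have hζ0 : ∀ i : ℕ, ζ i = (x i).1 0 := by
    intro i
    have h1 : ζ i = (x ((i : ℤ).toNat)).1 0 := if_pos (by omega)
    rw [h1, Int.toNat_natCast]
  have hζn : ∀ j : ℤ, j ≤ 0 → ζ j = (x 0).1 j := by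
    intro j hj
    rcases lt_or_eq_of_le hj with h1 | h1
    · exact if_neg (by omega)
    · rw [h1]
      exact hζ0 0
  -- closeness
  have hclose : ∀ (i : ℕ) (j : ℤ), -(K : ℤ) ≤ j → j ≤ K →
      ((x i).1 j, ζ (i + j)) ∈ V₁ ∧ lab ((x i).1 j) = lab (ζ (i + j)) ∧
        val ((x i).1 j) = val (ζ (i + j)) := by
    intro i j hj1 hj2
    rcases le_or_gt 0 j with h1 | h1
    · obtain ⟨k, rfl⟩ : ∃ k : ℕ, j = k := ⟨j.toNat, by omega⟩
      have h2 := hctl i k (by omega) 0 (by omega) (by omega)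
      rw [sh_iter, zero_add] at h2
      have h3 : ζ (i + k) = (x (i + k)).1 0 := by
        rw [← hζ0 (i + k)]
        push_cast
        rfl
      rw [h3]
      exact ⟨h2.1, h2.2.1, h2.2.2⟩
    · obtain ⟨k, rfl⟩ : ∃ k : ℕ, j = -(k : ℤ) := ⟨(-j).toNat, by omega⟩
      rcases le_or_gt k i with h2 | h2
      · obtain ⟨l, rfl⟩ : ∃ l, i = l + k := ⟨i - k, by omega⟩
        have h3 := hctl l k (by omega) (-(k : ℤ)) (by omega) (by omega)
        rw [sh_iter] at h3
        have h4 : ζ (((l + k : ℕ) : ℤ) + -(k : ℤ)) = (x l).1 0 := by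
          rw [← hζ0 l, show (((l + k : ℕ) : ℤ) + -(k : ℤ)) = (l : ℤ) by push_cast; ring]
        rw [neg_add_cancel] at h3
        rw [h4]
        exact ⟨hV₁s.symm _ _ h3.1, h3.2.1.symm, h3.2.2.symm⟩
      · have h3 := hctl 0 i (by omega) (-(k : ℤ)) (by omega) (by omega)
        rw [sh_iter, zero_add] at h3
        have h4 : ζ ((i : ℤ) + -(k : ℤ)) = (x 0).1 (-(k : ℤ) + i) := by
          rw [hζn _ (by omega), add_comm (i : ℤ)]
        rw [h4]
        exact ⟨hV₁s.symm _ _ h3.1, h3.2.1.symm, h3.2.2.symm⟩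
  -- the digits after a letter of `E`
  have hdig : ∀ (p : ℤ) (q : ℕ), q < M → lab (ζ p) = false →
      (∀ j : ℕ, j ≤ q → lab (ζ (p + 1 + j)) = true) → val (ζ (p + 1 + q)) = Hf h (ζ p) q := by
    intro p q hq hp hl
    rcases le_or_gt 0 p with h1 | h1
    · obtain ⟨i, rfl⟩ : ∃ i : ℕ, p = i := ⟨p.toNat, by omega⟩
      have h2 := (x i).2 0 q (by rw [← hζ0 i]; exact hp) (fun j hj => by
        have h3 := (hclose i (0 + 1 + j) (by omega) (by omega)).2.1
        rw [h3, ← hl j hj]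
        congr 2
        ring)
      have h4 := (hclose i (0 + 1 + q) (by omega) (by omega)).2.2
      rw [h2, ← hζ0 i] at h4
      rw [h4]
      congr 2
      ring
    · have key : ∀ j : ℕ, j ≤ q → lab ((x 0).1 (p + 1 + j)) = lab (ζ (p + 1 + j)) ∧
          val ((x 0).1 (p + 1 + j)) = val (ζ (p + 1 + j)) := by
        intro j hj
        rcases le_or_gt (p + 1 + (j : ℤ)) 0 with h2 | h2
        · rw [hζn _ h2]
          exact ⟨rfl, rfl⟩
        · have h3 := (hclose 0 (p + 1 + j) (by omega) (by omega)).2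
          rw [Nat.cast_zero, zero_add] at h3
          exact h3
      have h2 := (x 0).2 p q (by rw [← hζn p h1.le]; exact hp) (fun j hj => by
        rw [(key j hj).1]
        exact hl j hj)
      rw [(key q le_rfl).2] at h2
      rw [h2, hζn p h1.le]
  let bb : ℤ → Sg := fun p q => if (∀ j : ℕ, j ≤ q → lab (ζ (p + 1 + j)) = true)
    then val (ζ (p + 1 + q)) else Hf h (ζ p) q
  have hcor : ∀ p : ℤ, ∃ a : E ⊕ Bool, (ζ p, a) ∈ V₁ ∧ lab a = lab (ζ p) ∧ val a = val (ζ p) ∧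
      (lab (ζ p) = false → Hf h a = bb p) := by
    intro p
    rcases hp : ζ p with e | b
    · obtain ⟨e', he', hhe'⟩ := hM e (bb p) (fun q hq => by
        show h e q = if (∀ j : ℕ, j ≤ q → lab (ζ (p + 1 + j)) = true)
          then val (ζ (p + 1 + q)) else Hf h (ζ p) q
        split_ifs with h1
        · rw [hdig p q hq (by rw [hp]; rfl) h1, hp]
          rfl
        · rw [hp]
          rfl)
      exact ⟨Sum.inl e', he', rfl, rfl, fun _ => hhe'⟩
    · exact ⟨Sum.inr b, refl_mem_uniformity hV₁, rfl, rfl, fun h1 => absurd h1 (by simp [lab])⟩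
  choose z hz1 hz2 hz3 hz4 using hcor
  have hzX : z ∈ XSet h := by
    intro p q hp hl
    have h1 : lab (ζ p) = false := by rw [← hz2 p]; exact hp
    have h2 : ∀ j : ℕ, j ≤ q → lab (ζ (p + 1 + j)) = true := fun j hj => by
      rw [← hz2]
      exact hl j hj
    rw [hz4 p h1, hz3]
    show val (ζ (p + 1 + q)) = if (∀ j : ℕ, j ≤ q → lab (ζ (p + 1 + j)) = true)
          then val (ζ (p + 1 + q)) else Hf h (ζ p) q
    rw [if_pos h2]
  refine ⟨⟨z, hzX⟩, fun i => hVm _ _ fun j hj1 hj2 => ?_⟩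
  rw [sh_iter]
  show ((x i).1 j, z (j + i)) ∈ V₀
  apply hV₁V
  refine ⟨ζ (i + j), (hclose i j (by omega) (by omega)).1, ?_⟩
  rw [add_comm (i : ℤ) j]
  exact hz1 (j + i)

/-- mixing -/
theorem mixing_sh [UniformSpace E] {h : E → Sg} (hs : Function.Surjective h)
    {U V : Set (XSp h)} (hU : IsOpen U) (hV : IsOpen V) (hUn : U.Nonempty) (hVn : V.Nonempty) :
    ∃ N : ℕ, ∀ n : ℕ, N ≤ n → ∃ z ∈ U, (sh h)^[n] z ∈ V := by
  classical
  have win : ∀ {U : Set (XSp h)}, IsOpen U → ∀ x ∈ U, ∃ m : ℕ, ∀ z : XSp h,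
      (∀ j : ℤ, -(m : ℤ) ≤ j → j ≤ m → z.1 j = x.1 j) → z ∈ U := by
    intro U hU x hx
    obtain ⟨W, hW, hWU⟩ := UniformSpace.mem_nhds_iff.1 (hU.mem_nhds hx)
    obtain ⟨m, V₀, hV₀, hm⟩ := sub_window hW
    refine ⟨m, fun z hz => hWU (hm x z fun j h1 h2 => ?_)⟩
    rw [hz j h1 h2]
    exact refl_mem_uniformity hV₀
  obtain ⟨x, hx⟩ := hUn
  obtain ⟨y, hy⟩ := hVn
  obtain ⟨m₁, hm₁⟩ := win hU x hx
  obtain ⟨m₂, hm₂⟩ := win hV y hy
  obtain ⟨m, h1m, h2m⟩ : ∃ m : ℕ, m₁ ≤ m ∧ m₂ ≤ m := ⟨max m₁ m₂, le_max_left _ _, le_max_right _ _⟩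
  obtain ⟨e, he⟩ := hs fun q => val (y.1 (-(m : ℤ) + q))
  refine ⟨2 * m + 2, fun n hn => ?_⟩
  let z : ℤ → E ⊕ Bool := fun j => if j ≤ m then x.1 j else if (n : ℤ) - m ≤ j then y.1 (j - n)
    else Sum.inl e
  have z1 : ∀ j : ℤ, j ≤ m → z j = x.1 j := fun j hj => if_pos hj
  have z2 : ∀ j : ℤ, (n : ℤ) - m ≤ j → z j = y.1 (j - n) := fun j hj => by
    have h1 : z j = if (n : ℤ) - m ≤ j then y.1 (j - n) else Sum.inl e := if_neg (by omega)
    rw [h1, if_pos hj]
  have z3 : ∀ j : ℤ, (m : ℤ) < j → j < (n : ℤ) - m → z j = Sum.inl e := fun j hj hj' => by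
    have h1 : z j = if (n : ℤ) - m ≤ j then y.1 (j - n) else Sum.inl e := if_neg (by omega)
    rw [h1, if_neg (by omega)]
  have hzX : z ∈ XSet h := by
    intro p q hp hl
    rcases le_or_gt p m with h1 | h1
    · -- no letter of `E` in between
      have h2 : p + 1 + (q : ℤ) ≤ m := by
        by_contra hcon
        have h3 := hl ((m : ℤ) - p).toNat (by omega)
        rw [z3 _ (by omega) (by omega)] at h3
        exact absurd h3 (by simp [lab])
      rw [z1 _ h2, z1 _ h1]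
      refine x.2 p q (by rw [← z1 _ h1]; exact hp) fun j hj => ?_
      rw [← z1 _ (by omega)]
      exact hl j hj
    · rcases le_or_gt ((n : ℤ) - m) p with h2 | h2
      · rw [z2 _ (by omega), z2 _ h2]
        have h3 := y.2 (p - n) q (by rw [← z2 _ h2]; exact hp) (fun j hj => by
          have h4 := hl j hj
          rw [z2 _ (by omega)] at h4
          rw [show p - (n : ℤ) + 1 + j = p + 1 + j - n by ring]
          exact h4)
        rw [show p + 1 + (q : ℤ) - n = p - n + 1 + q by ring]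
        exact h3
      · have h3 : p = (n : ℤ) - m - 1 := by
          by_contra hcon
          have h4 := hl 0 (by omega)
          rw [z3 _ (by omega) (by omega)] at h4
          exact absurd h4 (by simp [lab])
        rw [z2 _ (by omega), z3 _ h1 h2]
        show val (y.1 (p + 1 + q - n)) = h e q
        rw [he, show p + 1 + (q : ℤ) - n = -(m : ℤ) + q by rw [h3]; ring]
  refine ⟨⟨z, hzX⟩, hm₁ _ fun j hj1 hj2 => z1 j (by omega), hm₂ _ fun j hj1 hj2 => ?_⟩
  rw [sh_iter]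
  show z (j + n) = y.1 j
  rw [z2 _ (by omega), add_sub_cancel_right]

end Pool.Agent.H64.Mix
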