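import Pool.Agent.H74.Shadow.Base

/-!
# A shift space over the alphabet `E ⊕ Bool`

`E` is compact and `h : E → Sg` is continuous and open. The space consists of the two-sided
sequences of letters of `E ⊕ Bool` such that the digits which follow a letter `e` of `E`, up to the
next letter of `E`, are the first digits of `h e`.
-/

namespace Pool.Agent.H64.Mix

open Filter Topology Uniformity Pool.Agent.H74.Shadow

variable {E : Type*}

/-- `false` on the letters of `E`, `true` on the digits -/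
def lab : E ⊕ Bool → Bool := Sum.elim (fun _ => false) (fun _ => true)

/-- the digit of a letter (`false` on `E`) -/
def val : E ⊕ Bool → Bool := Sum.elim (fun _ => false) id

/-- the sequence of a letter of `E` -/
def Hf (h : E → Sg) : E ⊕ Bool → Sg := Sum.elim h (fun _ _ => false)

/-- the set of the admissible sequences -/
def XSet (h : E → Sg) : Set (ℤ → E ⊕ Bool) :=
  {x | ∀ (p : ℤ) (q : ℕ), lab (x p) = false → (∀ j : ℕ, j ≤ q → lab (x (p + 1 + j)) = true) →
    val (x (p + 1 + q)) = Hf h (x p) q}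

theorem continuous_lab [TopologicalSpace E] : Continuous (lab : E ⊕ Bool → Bool) :=
  Continuous.sumElim continuous_const continuous_const

theorem continuous_val [TopologicalSpace E] : Continuous (val : E ⊕ Bool → Bool) :=
  Continuous.sumElim continuous_const continuous_id

theorem continuous_Hf [TopologicalSpace E] {h : E → Sg} (hc : Continuous h) :
    Continuous (Hf h) :=
  Continuous.sumElim hc continuous_const

theorem isClosed_XSet [TopologicalSpace E] {h : E → Sg} (hc : Continuous h) :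
    IsClosed (XSet h) := by
  have h1 : XSet h = ⋂ p : ℤ, ⋂ q : ℕ, {x | lab (x p) = false →
      (∀ j : ℕ, j ≤ q → lab (x (p + 1 + j)) = true) → val (x (p + 1 + q)) = Hf h (x p) q} := by
    ext x
    simp only [Set.mem_iInter]
    rfl
  rw [h1]
  refine isClosed_iInter fun p => isClosed_iInter fun q => ?_
  let F : (ℤ → E ⊕ Bool) → Bool × (Fin (q + 1) → Bool) × Bool × Bool := fun x =>
    (lab (x p), fun j => lab (x (p + 1 + (j : ℕ))), val (x (p + 1 + q)), Hf h (x p) q)
  have hF : Continuous F := by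
    refine (continuous_lab.comp (continuous_apply p)).prodMk (Continuous.prodMk ?_
      (Continuous.prodMk ?_ ?_))
    · exact continuous_pi fun j => continuous_lab.comp (continuous_apply _)
    · exact continuous_val.comp (continuous_apply _)
    · exact (continuous_apply q).comp ((continuous_Hf hc).comp (continuous_apply p))
  have h2 : {x : ℤ → E ⊕ Bool | lab (x p) = false →
      (∀ j : ℕ, j ≤ q → lab (x (p + 1 + j)) = true) → val (x (p + 1 + q)) = Hf h (x p) q} =
      F ⁻¹' {y | y.1 = false → (∀ j, y.2.1 j = true) → y.2.2.1 = y.2.2.2} := by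
    ext x
    constructor
    · intro hx h3 h4
      exact hx h3 fun j hj => h4 ⟨j, by omega⟩
    · intro hx h3 h4
      exact hx h3 fun j => h4 j (by omega)
  rw [h2]
  exact (isClosed_discrete _).preimage hF

/-- the space -/
abbrev XSp (h : E → Sg) := ↥(XSet h)

theorem compactSpace_XSp [TopologicalSpace E] [CompactSpace E] {h : E → Sg} (hc : Continuous h) :
    CompactSpace (XSp h) :=
  isCompact_iff_compactSpace.1 (isClosed_XSet hc).isCompact

theorem mem_add {h : E → Sg} {x : ℤ → E ⊕ Bool} (hx : x ∈ XSet h) (k : ℤ) :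
    (fun n => x (n + k)) ∈ XSet h := by
  intro p q h1 h2
  have h3 := hx (p + k) q h1 (fun j hj => by
    have := h2 j hj
    simp only at this
    rw [show p + k + 1 + (j : ℤ) = p + 1 + j + k by ring]
    exact this)
  simp only
  rw [show p + 1 + (q : ℤ) + k = p + k + 1 + q by ring]
  exact h3

/-- the shift -/
def sh [TopologicalSpace E] (h : E → Sg) : XSp h ≃ₜ XSp h where
  toFun x := ⟨fun n => x.1 (n + 1), mem_add x.2 1⟩
  invFun x := ⟨fun n => x.1 (n + -1), mem_add x.2 (-1)⟩
  left_inv x := by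
    apply Subtype.ext
    funext n
    show x.1 (n + -1 + 1) = x.1 n
    rw [neg_add_cancel_right]
  right_inv x := by
    apply Subtype.ext
    funext n
    show x.1 (n + 1 + -1) = x.1 n
    rw [add_neg_cancel_right]
  continuous_toFun := by
    refine Continuous.subtype_mk (continuous_pi fun n => ?_) _
    exact (continuous_apply (n + 1)).comp continuous_subtype_val
  continuous_invFun := by
    refine Continuous.subtype_mk (continuous_pi fun n => ?_) _
    exact (continuous_apply (n + -1)).comp continuous_subtype_val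

theorem sh_iter [TopologicalSpace E] (h : E → Sg) (n : ℕ) (x : XSp h) (j : ℤ) :
    ((sh h)^[n] x).1 j = x.1 (j + n) := by
  induction n generalizing j with
  | zero => simp
  | succ n ih =>
    rw [Function.iterate_succ_apply']
    show ((sh h)^[n] x).1 (j + 1) = x.1 (j + ((n + 1 : ℕ) : ℤ))
    rw [ih]
    push_cast
    rw [show j + 1 + (n : ℤ) = j + (n + 1) by ring]

/-- entourages of a product over `ℤ` -/
theorem pi_window {A : Type*} [UniformSpace A] {V : Set ((ℤ → A) × (ℤ → A))}
    (hV : V ∈ 𝓤 (ℤ → A)) : ∃ m : ℕ, ∃ V₀ ∈ 𝓤 A, ∀ x y : ℤ → A,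
      (∀ j : ℤ, -(m : ℤ) ≤ j → j ≤ m → (x j, y j) ∈ V₀) → (x, y) ∈ V := by
  classical
  rw [Pi.uniformity, Filter.mem_iInf] at hV
  obtain ⟨I, hI, W, hW, rfl⟩ := hV
  choose T hT hTW using fun i : I => Filter.mem_comap.1 (hW i)
  obtain ⟨m, hm⟩ : ∃ m : ℕ, ∀ i ∈ I, i.natAbs ≤ m := by
    obtain ⟨m, hm⟩ := (hI.image Int.natAbs).bddAbove
    exact ⟨m, fun i hi => hm ⟨i, hi, rfl⟩⟩
  have : Finite I := hI
  refine ⟨m, ⋂ i : I, T i, Filter.iInter_mem.2 hT, fun x y hxy => ?_⟩
  rw [Set.mem_iInter]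
  intro i
  apply hTW i
  have h1 := hm i.1 i.2
  exact Set.mem_iInter.1 (hxy i.1 (by omega) (by omega)) i

theorem sub_window {A : Type*} [UniformSpace A] {S : Set (ℤ → A)} {V : Set (S × S)}
    (hV : V ∈ 𝓤 S) : ∃ m : ℕ, ∃ V₀ ∈ 𝓤 A, ∀ x y : S,
      (∀ j : ℤ, -(m : ℤ) ≤ j → j ≤ m → (x.1 j, y.1 j) ∈ V₀) → (x, y) ∈ V := by
  rw [uniformity_subtype, Filter.mem_comap] at hV
  obtain ⟨T, hT, hTV⟩ := hV
  obtain ⟨m, V₀, hV₀, h⟩ := pi_window hT
  exact ⟨m, V₀, hV₀, fun x y hxy => hTV (h _ _ hxy)⟩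

theorem window_mem {A : Type*} [UniformSpace A] {S : Set (ℤ → A)} (m : ℕ) {V₀ : Set (A × A)}
    (hV₀ : V₀ ∈ 𝓤 A) :
    {p : S × S | ∀ j : ℤ, -(m : ℤ) ≤ j → j ≤ m → (p.1.1 j, p.2.1 j) ∈ V₀} ∈ 𝓤 S := by
  have h1 : ∀ j : ℤ, {p : S × S | (p.1.1 j, p.2.1 j) ∈ V₀} ∈ 𝓤 S := fun j => by
    have h2 : UniformContinuous fun x : S => x.1 j :=
      (Pi.uniformContinuous_proj _ j).comp uniformContinuous_subtype_val
    exact h2 hV₀
  have h3 : {p : S × S | ∀ j : ℤ, -(m : ℤ) ≤ j → j ≤ m → (p.1.1 j, p.2.1 j) ∈ V₀} =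
      ⋂ j ∈ Finset.Icc (-(m : ℤ)) m, {p : S × S | (p.1.1 j, p.2.1 j) ∈ V₀} := by
    ext p
    simp only [Set.mem_ofPred_eq, Set.mem_iInter, Finset.mem_Icc, and_imp]
  rw [h3, Filter.biInter_finset_mem]
  exact fun j _ => h1 j

/-- control of pseudo-orbits over a bounded time -/
theorem orbit_control {X : Type*} [UniformSpace X] {f : X → X} (hf : UniformContinuous f) (K : ℕ) :
    ∀ W ∈ 𝓤 X, ∃ D ∈ 𝓤 X, ∀ x : ℕ → X, (∀ i, (f (x i), x (i + 1)) ∈ D) →
      ∀ i k, k ≤ K → (f^[k] (x i), x (i + k)) ∈ W := by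
  induction K with
  | zero =>
    intro W hW
    refine ⟨Set.univ, univ_mem, fun x _ i k hk => ?_⟩
    obtain rfl : k = 0 := by omega
    exact refl_mem_uniformity hW
  | succ K ih =>
    intro W hW
    obtain ⟨W', hW', hWW⟩ := comp_mem_uniformity_sets hW
    obtain ⟨D, hD, hDx⟩ := ih (W ∩ {p | (f p.1, f p.2) ∈ W'}) (inter_mem hW (hf hW'))
    refine ⟨D ∩ W', inter_mem hD hW', fun x hx i k hk => ?_⟩
    have h1 := hDx x (fun i => (hx i).1)
    rcases Nat.lt_or_ge K k with h2 | h2
    · obtain rfl : k = K + 1 := by omega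
      apply hWW
      refine ⟨f (x (i + K)), ?_, ?_⟩
      · rw [Function.iterate_succ_apply']
        exact (h1 i K le_rfl).2
      · exact (hx (i + K)).2
    · exact (h1 i k h2).1

end Pool.Agent.H64.Mix
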